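import Pool.Agent.W544.FF.Defs3
import Pool.Agent.W976.PG.Gqp

/-!
# FF part 3, GQS: `S_g1s → S_gqs`
-/

set_option autoImplicit false

open Matrix Finset Module

namespace Pool.Agent.W883.FF

open Pool.Agent.W544.PG Pool.Agent.W544.FF Pool.Agent.W976.PG

noncomputable section

section aux
variable {n k b : ℕ}

lemma symF_cspan {f : Fin k → Fin b}
    {W : Submodule ℚ ((Fin k → Fin n) → ℚ)} (hW : ∀ w ∈ W, SymF f w) :
    ∀ w ∈ cspan W, SymF f w := by
  intro w hw
  induction hw using Submodule.span_induction with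
  | mem z hz =>
    obtain ⟨t, ht, rfl⟩ := hz
    intro π hπ J
    have h := hW t ht π hπ J
    simp only [cx]
    rw [h]
  | zero => exact fun π _ J => rfl
  | add x y _ _ ihx ihy =>
    intro π hπ J
    rw [Pi.add_apply, Pi.add_apply, ihx π hπ J, ihy π hπ J]
  | smul b x _ ih =>
    intro π hπ J
    rw [Pi.smul_apply, Pi.smul_apply, ih π hπ J]

lemma symF_pull {f : Fin k → Fin b} {g : Matrix (Fin n) (Fin n) ℂ}
    {s : (Fin k → Fin n) → ℂ} (hs : SymF f s) : SymF f (pull g s) := by
  intro π hπ J
  unfold pull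
  rw [← (Equiv.arrowCongr π.symm (Equiv.refl (Fin n))).sum_comp]
  refine Finset.sum_congr rfl fun K _ => ?_
  have h1 : (Equiv.arrowCongr π.symm (Equiv.refl (Fin n))) K = fun j => K (π j) := by
    funext j
    simp [Equiv.arrowCongr]
  rw [h1, hs π hπ K]
  congr 1
  exact Equiv.prod_comp π (fun j => g (K j) (J j))

end aux

/-- (GQS) -/
theorem gqs (hg1 : S_g1s) : S_gqs := by
  intro n r k b l T c a f p q hbQ hbx htr hcard hfa hns W hsup hsym hW hW'
  classical
  have hQT : (mC T.Q)ᵀ = mC T.Q := by
    have := congrArg mC T.symm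
    rwa [show mC (T.Qᵀ) = (mC T.Q)ᵀ from rfl] at this
  have hbQC : BD c (mC T.Q) := by
    intro x y hxy
    change ((T.Q x y : ℚ) : ℂ) = 0
    rw [hbQ x y hxy]
    simp
  have hdet : (mC T.Q).det ≠ 0 := by
    obtain ⟨g, hg⟩ := Pool.Agent.W563.PG.Gq.exists_orth T
    intro h0
    have h1 := congrArg Matrix.det hg
    rw [Matrix.det_mul, Matrix.det_mul, h0, mul_zero, zero_mul, Matrix.det_one] at h1
    exact zero_ne_one h1
  obtain ⟨g, hbg, hg⟩ := Pool.Agent.W918.PG.orthBD c (mC T.Q) hbQC hQT hdet
  set h : Matrix (Fin n) (Fin n) ℂ := gᵀ * mC T.Q with hh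
  have hgh : g * h = 1 := mul_eq_one_comm.1 hg
  have hbgT : BD c gᵀ := fun x y hxy => hbg y x (Ne.symm hxy)
  have hbh : BD c h := Pool.Agent.W918.PG.bd_mul hbgT hbQC
  have hhT : hᵀ = mC T.Q * g := by
    rw [hh, Matrix.transpose_mul, Matrix.transpose_transpose, hQT]
  have hhh : hᵀ * h = mC T.Q := by
    rw [hhT, mul_assoc, hgh, mul_one]
  -- the Hodge operator in orthonormal coordinates
  have hX1 : (h * T.x * g)ᵀ = -(h * T.x * g) := by
    have e : T.xᵀ * mC T.Q = -(mC T.Q * T.x) := eq_neg_of_add_eq_zero_left T.skew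
    calc (h * T.x * g)ᵀ = gᵀ * (T.xᵀ * mC T.Q) * g := by
          rw [Matrix.transpose_mul, Matrix.transpose_mul, hhT]
          simp only [mul_assoc]
      _ = -(h * T.x * g) := by
          rw [e, mul_neg, neg_mul, hh]
          simp only [mul_assoc]
  have hX2 : h * T.x * g * (h * T.x * g) * (h * T.x * g) = h * T.x * g := by
    calc h * T.x * g * (h * T.x * g) * (h * T.x * g) =
        h * T.x * (g * h) * T.x * (g * h) * T.x * g := by simp only [mul_assoc]
      _ = h * (T.x * T.x * T.x) * g := by
        rw [hgh]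
        simp only [mul_assoc, mul_one]
      _ = h * T.x * g := by rw [T.cube]
  have hbX : BD c (h * T.x * g) :=
    Pool.Agent.W918.PG.bd_mul (Pool.Agent.W918.PG.bd_mul hbh hbx) hbg
  have hX3 : ∀ i, ∑ b with c b = i, (h * T.x * g * (h * T.x * g)) b b = 2 * (p i : ℂ) := by
    intro i
    rw [← htr i, tr_cd, tr_cd]
    have hc := (Pool.Agent.W918.PG.bd_iff c h).1 hbh i
    calc (Pool.Agent.W918.PG.cd c i * (h * T.x * g * (h * T.x * g))).trace
        = (Pool.Agent.W918.PG.cd c i * h * (T.x * (g * h) * T.x * g)).trace := by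
          simp only [mul_assoc]
      _ = (h * (Pool.Agent.W918.PG.cd c i * (T.x * T.x) * g)).trace := by
          rw [hc, hgh]
          simp only [mul_assoc, mul_one]
      _ = (Pool.Agent.W918.PG.cd c i * (T.x * T.x)).trace := by
        rw [Matrix.trace_mul_comm, mul_assoc, hgh, mul_one]
  have hact : ∀ (Z : Matrix (Fin n) (Fin n) ℂ) (w : (Fin k → Fin n) → ℂ),
      act Z (pull g w) = pull g (act (g * Z * h) w) := fun Z w =>
    Pool.Agent.W563.PG.Gq.act_pull (by rw [mul_assoc, hg, mul_one]) w
  have hM := hg1 n r k b l c a f p (h * T.x * g) hX1 hX2 hbX hX3 hfa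
    (fun i => Or.inl ⟨hns i, by have h1 := hcard i; have h2 := hns i; omega⟩)
    ((cspan W).map (Pool.Agent.W563.PG.Gq.pullL g)) ?_ ?_ ?_ ?_
  · -- the empty case
    rcases Nat.eq_zero_or_pos n with hn | hn
    · subst hn
      intro w hw
      rcases Nat.eq_zero_or_pos k with hk | hk
      · subst hk
        rcases Nat.eq_zero_or_pos l with hl | hl
        · subst hl
          refine Submodule.subset_span ⟨id, w, fun j => rfl, fun j => rfl, ?_, ?_, ?_⟩
          · simp
          · intro J J' _
            rw [Subsingleton.elim J J']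
          · intro J
            simp
        · have h1 := hW' 0 (by simp; omega) (cx w) (Submodule.subset_span ⟨w, hw, rfl⟩) (by
            funext J
            simp [act])
          have h2 : w = 0 := by
            funext J
            have h3 := congrFun h1 J
            simpa [cx] using h3
          rw [h2]
          exact Submodule.zero_mem _
      · have h2 : w = 0 := by
          funext J
          exact (J ⟨0, hk⟩).elim0
        rw [h2]
        exact Submodule.zero_mem _
    intro w hw
    refine Pool.Agent.W563.PG.Gq.descend _ w ?_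
    have h1 : pull g (cx w) ∈ insC2 c a l :=
      hM ⟨cx w, Submodule.subset_span ⟨w, hw, rfl⟩, rfl⟩
    have h2 : cx w ∈ (insC2 c a l).map (Pool.Agent.W563.PG.Gq.pullL h) :=
      ⟨_, h1, by
        change pull h (pull g (cx w)) = cx w
        rw [Pool.Agent.W563.PG.Gq.pull_pull, hgh, Pool.Agent.W563.PG.Gq.pull_one]⟩
    have h3 : (insC2 c a l).map (Pool.Agent.W563.PG.Gq.pullL h) ≤
        Submodule.span ℂ ((fun (t : (Fin k → Fin n) → ℚ) J => (t J : ℂ)) ''
          (T.ins2 c a l : Set ((Fin k → Fin n) → ℚ))) := by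
      rw [insC2, Submodule.map_span, Submodule.span_le]
      rintro _ ⟨s, ⟨σ, u, hσ, hσa, hl, hu, hs⟩, rfl⟩
      have z : Fin n := ⟨0, hn⟩
      -- first decomposition
      set b : (Fin k → Fin n) → ℂ := fun d => if ∀ j, σ j ≠ j → d j = z then u d else 0 with hb
      have hcol : ∀ J K : Fin k → Fin n, (∏ j, h (K j) (J j)) *
          (∏ j with j < σ j, if K j = K (σ j) ∧ c (K j) = a j then (1 : ℂ) else 0) =
          (∏ j with j < σ j, if c (J j) = a j then (1 : ℂ) else 0) * ((∏ j, h (K j) (J j)) *
          (∏ j with j < σ j, if K j = K (σ j) then (1 : ℂ) else 0)) := by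
        intro J K
        by_cases h0 : ∏ j, h (K j) (J j) = 0
        · rw [h0]
          simp
        · replace h0 := Finset.prod_ne_zero_iff.1 h0
          have h4 : ∀ j, c (K j) = c (J j) := fun j => by
            by_contra h5
            exact h0 j (Finset.mem_univ j) (hbh _ _ h5)
          rw [mul_left_comm, ← Finset.prod_mul_distrib]
          congr 1
          refine Finset.prod_congr rfl fun j _ => ?_
          rw [h4 j]
          by_cases h6 : K j = K (σ j) <;> by_cases h7 : c (J j) = a j <;> simp [h6, h7]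
      have e1 : Pool.Agent.W563.PG.Gq.pullL h s = ∑ d : Fin k → Fin n, b d • fun J =>
          (∏ j with j < σ j, if c (J j) = a j then mC T.Q (J j) (J (σ j)) else 0) *
            ∏ j with σ j = j, h (d j) (J j) := by
        funext J
        rw [Finset.sum_apply]
        simp only [Pi.smul_apply, smul_eq_mul]
        have e0 : ∀ d : Fin k → Fin n, (∏ j with j < σ j,
            if c (J j) = a j then mC T.Q (J j) (J (σ j)) else 0) *
            ∏ j with σ j = j, h (d j) (J j) =
            (∏ j with j < σ j, if c (J j) = a j then (1 : ℂ) else 0) *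
            ∑ K : Fin k → Fin n, (∏ j, h (K j) (J j)) *
      ((∏ j with j < σ j, if K j = K (σ j) then (1 : ℂ) else 0) *
        ∏ j with σ j = j, if K j = d j then (1 : ℂ) else 0) := by
          intro d
          rw [Pool.Agent.W563.PG.Gq.pull_pairs h σ hσ d J, ← mul_assoc,
            ← Finset.prod_mul_distrib, hhh]
          congr 1
          refine Finset.prod_congr rfl fun j _ => ?_
          split_ifs <;> simp
        simp only [e0, Finset.mul_sum]
        rw [Finset.sum_comm]
        change ∑ K : Fin k → Fin n, (∏ j, h (K j) (J j)) * s K = _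
        refine Finset.sum_congr rfl fun K _ => ?_
        rw [hs K, ← mul_assoc, hcol J K, Pool.Agent.W563.PG.Gq.dec_fix z σ u hu K,
          Finset.mul_sum]
        refine Finset.sum_congr rfl fun d _ => ?_
        rw [hb]
        ring
      rw [e1]
      refine Submodule.sum_mem _ fun d _ => Submodule.smul_mem _ _ ?_
      -- second decomposition
      have e2 : (fun J : Fin k → Fin n =>
          (∏ j with j < σ j, if c (J j) = a j then mC T.Q (J j) (J (σ j)) else 0) *
            ∏ j with σ j = j, h (d j) (J j)) =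
          ∑ d' : Fin k → Fin n, (if ∀ j, σ j ≠ j → d' j = z then
            (∏ j with σ j = j, h (d j) (d' j)) else 0) • fun J =>
            (((∏ j with j < σ j, if c (J j) = a j then T.Q (J j) (J (σ j)) else 0) *
              ∏ j with σ j = j, if J j = d' j then (1 : ℚ) else 0 : ℚ) : ℂ) := by
        funext J
        rw [Finset.sum_apply]
        simp only [Pi.smul_apply, smul_eq_mul]
        rw [Pool.Agent.W563.PG.Gq.dec_fix z σ (fun J => ∏ j with σ j = j, h (d j) (J j))
          (fun J J' hJ =>
          Finset.prod_congr rfl fun j hj => by rw [hJ j (by simpa using hj)]) J, Finset.mul_sum]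
        refine Finset.sum_congr rfl fun d' _ => ?_
        rw [Rat.cast_mul, Rat.cast_prod, Rat.cast_prod]
        have e3 : ∀ j, ((if J j = d' j then (1 : ℚ) else 0 : ℚ) : ℂ) =
            if J j = d' j then (1 : ℂ) else 0 := fun j => by split_ifs <;> simp
        have e4 : ∀ j, ((if c (J j) = a j then T.Q (J j) (J (σ j)) else 0 : ℚ) : ℂ) =
            if c (J j) = a j then mC T.Q (J j) (J (σ j)) else 0 := fun j => by
          split_ifs <;> simp [mC]
        simp only [e3, e4]
        ring
      rw [e2]
      refine Submodule.sum_mem _ fun d' _ => Submodule.smul_mem _ _ (Submodule.subset_span ?_)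
      refine ⟨fun J => (∏ j with j < σ j, if c (J j) = a j then T.Q (J j) (J (σ j)) else 0) *
              ∏ j with σ j = j, (if J j = d' j then (1 : ℚ) else 0), ?_, rfl⟩
      refine Submodule.subset_span ⟨σ, _, hσ, hσa, hl, ?_, fun J => rfl⟩
      intro J J' hJ
      exact Finset.prod_congr rfl fun j hj => by rw [hJ j (by simpa using hj)]
    exact h3 h2
  · -- support
    rintro _ ⟨w, hw, rfl⟩
    exact supp_pull hbg (supp_cspan hsup w hw)
  · -- symmetry
    rintro _ ⟨w, hw, rfl⟩
    exact symF_pull (symF_cspan hsym w hw)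
  · -- stability under `so(n)`
    rintro Z hZ hbZ _ ⟨w, hw, rfl⟩
    refine ⟨act (g * Z * h) w, hW _ ?_ ?_ w hw, (hact Z w).symm⟩
    · rw [Matrix.transpose_mul (g * Z) h, Matrix.transpose_mul g Z, hZ, hhT]
      have h1 : mC T.Q * g * (-Z * gᵀ) * mC T.Q = -(mC T.Q * (g * Z * h)) := by
        rw [hh]
        simp only [mul_assoc, neg_mul, mul_neg]
      rw [h1, neg_add_cancel]
    · exact Pool.Agent.W918.PG.bd_mul (Pool.Agent.W918.PG.bd_mul hbg hbZ) hbh
  · -- weights
    rintro e he _ ⟨w, hw, rfl⟩ hs
    have h1 : act T.x w = (e : ℂ) • w := by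
      have h2 : act (h * T.x * g) (pull g w) = (e : ℂ) • pull g w := hs
      rw [hact] at h2
      have h3 : g * (h * T.x * g) * h = T.x := by
        calc g * (h * T.x * g) * h = (g * h) * T.x * (g * h) := by simp only [mul_assoc]
          _ = T.x := by rw [hgh, one_mul, mul_one]
      rw [h3] at h2
      have h4 := congrArg (pull h) h2
      rw [Pool.Agent.W563.PG.Gq.pull_pull, hgh, Pool.Agent.W563.PG.Gq.pull_one] at h4
      rw [h4]
      change Pool.Agent.W563.PG.Gq.pullL h ((e : ℂ) • Pool.Agent.W563.PG.Gq.pullL g w) = _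
      rw [map_smul]
      change (e : ℂ) • pull h (pull g w) = _
      rw [Pool.Agent.W563.PG.Gq.pull_pull, hgh, Pool.Agent.W563.PG.Gq.pull_one]
    change pull g w = 0
    rw [hW' e he w hw h1]
    exact map_zero (Pool.Agent.W563.PG.Gq.pullL g)

end

end Pool.Agent.W883.FF
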